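import Pool.Agent.H74.CB.Defs

set_option autoImplicit false

/-!
# [H74 CB Mes] Measurability and the cone

* `eset_meas`: the set is the intersection of the closed set of all `ζ` with `‖f (t ζ)‖ = ‖g (t ζ)‖` for all `|t| = 1` and the complement of the closed
  set of all `ζ` with `f (t ζ) = 0` for some `|t| = 1` (image of a compact subset of `sphere × circle` under the first projection:
  `IsCompact.image`, `IsClosed`; `ζ ↦ f (t ζ)` is continuous on `sphere` since `t ζ` lies in the closed ball).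
* `cone_union`: `toSphere_apply'` (`A` measurable): `toSphere A = dim * volume (Ioo 0 1 • ((↑) '' A))`, so this volume is not `0`; the cone is contained in
  `⋃ M, S M` (`Set.mem_smul`), and `measure_iUnion_null` (outer measure, no measurability of `S M`).
-/

namespace Pool.Agent.H74.CB

open MeasureTheory Metric
open scoped Pointwise

private theorem cont_pair {n : ℕ} (f : V n → ℂ) (hf : ContinuousOn f (closedBall (0 : V n) 1)) :
    Continuous (fun q : sphere (0 : V n) 1 × sphere (0 : ℂ) 1 => f ((q.2 : ℂ) • (q.1 : V n))) := by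
  refine hf.comp_continuous (by fun_prop) ?_
  intro q
  have h1 : ‖(q.1 : V n)‖ = 1 := by simp
  have h2 : ‖(q.2 : ℂ)‖ = 1 := by simp
  rw [mem_closedBall_zero_iff, norm_smul, h1, h2]
  norm_num

theorem eset_meas {n : ℕ} (f g : V n → ℂ) (hf : ContinuousOn f (closedBall (0 : V n) 1))
    (hg : ContinuousOn g (closedBall (0 : V n) 1)) :
    MeasurableSet {ζ : sphere (0 : V n) 1 | ∀ t : ℂ, ‖t‖ = 1 →
      ‖f (t • (ζ : V n))‖ = ‖g (t • (ζ : V n))‖ ∧ f (t • (ζ : V n)) ≠ 0} := by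
  have hF := cont_pair f hf
  have hG := cont_pair g hg
  have key : {ζ : sphere (0 : V n) 1 | ∀ t : ℂ, ‖t‖ = 1 →
      ‖f (t • (ζ : V n))‖ = ‖g (t • (ζ : V n))‖ ∧ f (t • (ζ : V n)) ≠ 0} =
      (⋂ t : sphere (0 : ℂ) 1, {ζ : sphere (0 : V n) 1 |
        ‖f ((t : ℂ) • (ζ : V n))‖ = ‖g ((t : ℂ) • (ζ : V n))‖}) ∩
      (Prod.fst '' {q : sphere (0 : V n) 1 × sphere (0 : ℂ) 1 |
        f ((q.2 : ℂ) • (q.1 : V n)) = 0})ᶜ := by
    ext ζ
    constructor
    · intro h
      refine ⟨?_, ?_⟩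
      · rw [Set.mem_iInter]
        intro t
        exact (h (t : ℂ) (by simp)).1
      · rintro ⟨q, hq, rfl⟩
        exact (h (q.2 : ℂ) (by simp)).2 hq
    · rintro ⟨h1, h2⟩ t ht
      have ht' : t ∈ sphere (0 : ℂ) 1 := by simpa using ht
      refine ⟨(Set.mem_iInter.1 h1) ⟨t, ht'⟩, fun h0 => h2 ⟨(ζ, ⟨t, ht'⟩), h0, rfl⟩⟩
  rw [key]
  refine MeasurableSet.inter ?_ ?_
  · refine (isClosed_iInter fun t => ?_).measurableSet
    have c1 : Continuous (fun ζ : sphere (0 : V n) 1 => f ((t : ℂ) • (ζ : V n))) :=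
      hF.comp (Continuous.prodMk continuous_id continuous_const)
    have c2 : Continuous (fun ζ : sphere (0 : V n) 1 => g ((t : ℂ) • (ζ : V n))) :=
      hG.comp (Continuous.prodMk continuous_id continuous_const)
    exact isClosed_eq c1.norm c2.norm
  · have hcl : IsClosed {q : sphere (0 : V n) 1 × sphere (0 : ℂ) 1 |
        f ((q.2 : ℂ) • (q.1 : V n)) = 0} := isClosed_eq hF continuous_const
    exact (isClosedMap_fst_of_compactSpace _ hcl).measurableSet.compl

theorem cone_union {n : ℕ} (A : Set (sphere (0 : V n) 1)) (hA : MeasurableSet A)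
    (hpos : (volume : Measure (V n)).toSphere A ≠ 0) (S : ℕ → Set (V n))
    (hS : ∀ ζ ∈ A, ∀ t : ℝ, 0 < t → t < 1 → ∃ M, t • (ζ : V n) ∈ S M) :
    ∃ M, (volume : Measure (V n)) (S M) ≠ 0 := by
  by_contra hcon
  have hcon' : ∀ M, (volume : Measure (V n)) (S M) = 0 := by
    intro M
    by_contra h
    exact hcon ⟨M, h⟩
  apply hpos
  rw [Measure.toSphere_apply' _ hA]
  have hsub : Set.Ioo (0 : ℝ) 1 • (Subtype.val '' A : Set (V n)) ⊆ ⋃ M, S M := by
    intro x hx
    obtain ⟨t, ht, y, ⟨ζ, hζ, rfl⟩, rfl⟩ := Set.mem_smul.1 hx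
    obtain ⟨M, hM⟩ := hS ζ hζ t ht.1 ht.2
    exact Set.mem_iUnion.2 ⟨M, hM⟩
  rw [measure_mono_null hsub (measure_iUnion_null hcon'), mul_zero]

end Pool.Agent.H74.CB
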