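import Pool.Agent.H81.CS.Pol

set_option autoImplicit false

/-! # [H74 CB Pol] Null sets by rays, and the identity theorem (proved by helper81) -/

namespace Pool.Agent.H74.CB

open MeasureTheory Metric

theorem ident {n : ℕ} (hn : 1 ≤ n) (D : V n → ℝ) (hc : ContinuousOn D (ball (0 : V n) 1))
    (ha : ∀ a v : V n, ∀ t : ℝ, a + t • v ∈ ball (0 : V n) 1 →
      AnalyticAt ℝ (fun s : ℝ => D (a + s • v)) t)
    (hpos : (volume : Measure (V n)) {w | w ∈ ball (0 : V n) 1 ∧ D w = 0} ≠ 0) :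
    ∀ w ∈ ball (0 : V n) 1, D w = 0 :=
  Pool.Agent.H81.CS.ident hn D hc ha hpos

end Pool.Agent.H74.CB
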