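import Pool.Agent.H74.CB.Cj
import Pool.Agent.H29.CS.Blaschke

set_option autoImplicit false

/-!
# [H74 CB Blk] Dividing out the zeros (finite Blaschke products), one complex variable (uses the STATEMENTS of `Cj`)

For a polynomial `P` of degree `≤ N` let `cj N P = ∑ conj (p_i) X^(N-i)` (`(P.map conj).reflect N`).
The proof is `Pool.Agent.H29.CS.factor_all` (induction on the number of zeros in the open disc, each
one divided out with its full multiplicity) with `P = cj N U`.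
-/

namespace Pool.Agent.H74.CB

open MeasureTheory Metric Polynomial

theorem blk (F : ℂ → ℂ) (hF : ContinuousOn F (closedBall (0 : ℂ) 1))
    (hF' : DifferentiableOn ℂ F (ball (0 : ℂ) 1)) (h0 : ∀ t : ℂ, ‖t‖ = 1 → F t ≠ 0) :
    ∃ (N : ℕ) (P : ℂ[X]) (H : ℂ → ℂ), P.natDegree ≤ N ∧ P ≠ 0 ∧
      ContinuousOn H (closedBall (0 : ℂ) 1) ∧ DifferentiableOn ℂ H (ball (0 : ℂ) 1) ∧
      (∀ l : ℂ, ‖l‖ ≤ 1 → H l ≠ 0) ∧
      (∀ l : ℂ, ‖l‖ ≤ 1 → F l * (cj N P).eval l = P.eval l * H l) ∧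
      (∀ l : ℂ, ‖l‖ = 1 → ‖H l‖ = ‖F l‖) := by
  have hd : DiffContOnCl ℂ F (ball 0 1) :=
    ⟨hF', by rw [closure_ball (0 : ℂ) one_ne_zero]; exact hF⟩
  obtain ⟨N, U, w, hU0, hUd, hw, hw0, hwn, hwu⟩ := Pool.Agent.H29.CS.factor_all _ hd h0 rfl
  have hcj : ∀ P : ℂ[X], cj N P = Pool.Agent.H29.CS.cstar N P := fun P => rfl
  refine ⟨N, Pool.Agent.H29.CS.cstar N U, w, Pool.Agent.H29.CS.natDegree_cstar_le hUd,
    Pool.Agent.H29.CS.cstar_ne_zero hU0, ?_, hw.differentiableOn, ?_, ?_, ?_⟩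
  · rw [← closure_ball (0 : ℂ) one_ne_zero]
    exact hw.continuousOn
  · intro l hl
    exact hw0 l (by simpa using hl)
  · intro l _
    rw [hcj, Pool.Agent.H29.CS.cstar_cstar, hwu l]
    ring
  · exact hwn

end Pool.Agent.H74.CB
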