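import Pool.Agent.H74.CB.Defs
import Pool.Agent.H81.CS.Cap

set_option autoImplicit false

/-! # [H74 CB Cap] Equal moduli on the whole sphere, from `cap_eq` of helper81 -/

namespace Pool.Agent.H74.CB

open MeasureTheory Metric

theorem cap {n : ℕ} (hn : 2 ≤ n) (f g : V n → ℂ)
    (hf : ContinuousOn f (closedBall (0 : V n) 1)) (hf' : DifferentiableOn ℂ f (ball (0 : V n) 1))
    (hg : ContinuousOn g (closedBall (0 : V n) 1)) (hg' : DifferentiableOn ℂ g (ball (0 : V n) 1))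
    (h : ∀ z : V n, ‖z‖ = 1 → ‖f z‖ = ‖g z‖) :
    ∃ c : ℂ, ∀ z ∈ closedBall (0 : V n) 1, f z = c * g z :=
  Pool.Agent.H81.CS.cap_eq hn hf hf' hg hg' fun x hx => h x (mem_sphere_zero_iff_norm.1 hx)

end Pool.Agent.H74.CB
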