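import Pool.Agent.H74.CB.Defs

set_option autoImplicit false

/-!
# [H74 CB CapL] Equal moduli near a boundary point

`cap_loc`: by continuity there is `d > 0` with `f ≠ 0`, `g ≠ 0` on `closedBall 0 1 ∩ ball a d` (`f a ≠ 0` as `‖f a‖ = ‖g a‖`). Choose a unit vector `v` with `⟪v, a⟫ = 0`
(`n ≥ 2`: the orthogonal complement of `ℂ a` is not `0`, e.g. `finrank` argument, `Submodule.exists_mem_ne_zero_of_...`). Choose `e > 0` with `2 e + √(2 e) < d`, `e ≤ 1`, and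
let `w ∈ ball 0 1`, `‖w - a‖ < e`. Put `b = ⟪v, w⟫`; `|b| = |⟪v, w - a⟫| ≤ e`. For complex `s`: `‖w + s v‖² = |b + s|² + (‖w‖² - |b|²)`. So
`Ω = {s | w + s v ∈ ball 0 1} = ball (-b) ρ`, `ρ² = 1 - ‖w‖² + |b|² > 0`, with closure `closedBall (-b) ρ` and boundary `{‖w + s v‖ = 1}`; as `‖w‖ ≥ 1 - e`, `ρ² ≤ 2e - e² + e² = 2 e`, so
for `s` in the closure `‖w + s v - a‖ ≤ ‖w - a‖ + |s| ≤ e + |b| + ρ ≤ 2 e + √(2 e) < d`. Hence `h(s) = f (w + s v) / g (w + s v)` is continuous on `closedBall (-b) ρ`,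
differentiable on `ball (-b) ρ`, `|h| = 1` on the boundary; so `|h| ≤ 1` inside (`Complex.norm_le_of_forall_mem_frontier_norm_le`), the same for `1/h`; `s = 0`:
`‖f w‖ = ‖g w‖`. (It suffices to prove `‖f w‖ ≤ ‖g w‖` for all pairs, then exchange `f` and `g`.)
-/

namespace Pool.Agent.H74.CB

open MeasureTheory Metric

theorem cap_loc {n : ℕ} (hn : 2 ≤ n) (f g : V n → ℂ)
    (hf : ContinuousOn f (closedBall (0 : V n) 1)) (hf' : DifferentiableOn ℂ f (ball (0 : V n) 1))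
    (hg : ContinuousOn g (closedBall (0 : V n) 1)) (hg' : DifferentiableOn ℂ g (ball (0 : V n) 1))
    (h : ∀ z : V n, ‖z‖ = 1 → ‖f z‖ = ‖g z‖) (a : V n) (ha : ‖a‖ = 1) (hga : g a ≠ 0) :
    ∃ e > 0, ∀ w ∈ ball (0 : V n) 1, ‖w - a‖ < e → g w ≠ 0 ∧ ‖f w‖ = ‖g w‖ := by
  sorry

end Pool.Agent.H74.CB
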