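import Pool.Agent.H74.CB.Defs

set_option autoImplicit false

/-!
# [H74 CB Cj] The reversed conjugate polynomial

`cj N P = sum of conj (p_i) X^(N-i)` for `P` of degree `≤ N`. Lemmas of Mathlib: `Polynomial.reflect_mul`, `Polynomial.coeff_reflect`, `Polynomial.revAt`, `Polynomial.map_mul`,
`Polynomial.natDegree_map_le`, `Polynomial.eval_eq_sum_range'`, `Finset.sum_range_reflect`, `Polynomial.eval_map`, `Polynomial.hom_eval₂`; on the circle `conj l = l⁻¹`
(`Complex.inv_def` or `Complex.mul_conj`, `Complex.normSq_eq_norm_sq`).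
-/

namespace Pool.Agent.H74.CB

open MeasureTheory Metric Polynomial

/-- the reversed conjugate polynomial -/
noncomputable def cj (N : ℕ) (P : ℂ[X]) : ℂ[X] := (P.map (starRingEnd ℂ)).reflect N

theorem cj_mul (N K : ℕ) (P Q : ℂ[X]) (hP : P.natDegree ≤ N) (hQ : Q.natDegree ≤ K) :
    cj (N + K) (P * Q) = cj N P * cj K Q := by
  sorry

theorem cj_cj (N : ℕ) (P : ℂ[X]) : cj N (cj N P) = P := by
  sorry

theorem cj_deg (N : ℕ) (P : ℂ[X]) (hP : P.natDegree ≤ N) : (cj N P).natDegree ≤ N := by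
  sorry

theorem cj_eval (N : ℕ) (P : ℂ[X]) (hP : P.natDegree ≤ N) (l : ℂ) :
    (cj N P).eval l = ∑ i ∈ Finset.range (N + 1), (starRingEnd ℂ) (P.coeff i) * l ^ (N - i) := by
  sorry

theorem cj_circle (N : ℕ) (P : ℂ[X]) (hP : P.natDegree ≤ N) (l : ℂ) (hl : ‖l‖ = 1) :
    (cj N P).eval l = l ^ N * (starRingEnd ℂ) (P.eval l) := by
  sorry

theorem cj_lin (a : ℂ) : cj 1 (X - C a) = 1 - C ((starRingEnd ℂ) a) * X := by
  sorry

theorem cj_one_add (N : ℕ) : cj N ((1 + X) ^ N) = (1 + X) ^ N := by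
  sorry

theorem cj_C_mul (N : ℕ) (e : ℂ) (P : ℂ[X]) : cj N (C e * P) = C ((starRingEnd ℂ) e) * cj N P := by
  sorry

end Pool.Agent.H74.CB
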