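import Mathlib

set_option autoImplicit false

/-!
# [H74 CB Defs] MP_845814_an, circular sets

THEOREM. Let `n ≥ 2` and `f, g ∈ A(B_n)`. If the set of all `ζ` in the sphere with `|f(tζ)| = |g(tζ)| ≠ 0` for all `|t| = 1`
has positive measure, then `f = c g`.

PROOF. For such `ζ` there are `M` and a polynomial `U ≠ 0` of degree `≤ 2M` with
`f(lζ) U(l) = g(lζ) U*(l)`, `U*(l) = ∑ conj(u_i) l^(2M-i)`, for `|l| ≤ 1` (module `Rel`; finite Blaschke products, module `Blk`).
With `w = tζ`, `0 < t < 1`, `r = ‖w‖²`, `v_i = u_i t^i`: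
`r^M f(lw) ∑ v_i l^i = g(lw) ∑ conj(v_i) (r l)^(2M-i)` (`cf_ker`), a real linear system in `v` (coefficients `cf`) which has a nonzero
solution. By `Grm` this means that all Gram determinants vanish. For some `M` this happens on a set of `w` of positive measure
(`Mes`), hence for all `w` in the ball (`Pol`), hence (continuity) for all `w` in the sphere, and then `|f| = |g|` on the sphere
(`cf_sph`). Module `Cap` gives `f = c g`.
-/

namespace Pool.Agent.H74.CB

open MeasureTheory Metric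

abbrev V (n : ℕ) := EuclideanSpace ℂ (Fin n)

/-- Gram matrix of the real linear forms `x ↦ ∑ α, x α * c l α`, `l ∈ K` -/
noncomputable def gr {ι T : Type*} (c : T → ι → ℂ) (K : Finset T) : Matrix ι ι ℝ :=
  fun α β => ∑ l ∈ K, ((starRingEnd ℂ) (c l α) * c l β).re

/-- the terms with `f` -/
noncomputable def cp {n : ℕ} (M : ℕ) (f : V n → ℂ) (w : V n) (l : ℂ) (i : ℕ) : ℂ :=
  ((‖w‖ ^ 2 : ℝ) : ℂ) ^ M * f (l • w) * l ^ i

/-- the terms with `g` -/
noncomputable def cq {n : ℕ} (M : ℕ) (g : V n → ℂ) (w : V n) (l : ℂ) (i : ℕ) : ℂ :=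
  g (l • w) * (((‖w‖ ^ 2 : ℝ) : ℂ) * l) ^ (2 * M - i)

/-- coefficients of the real linear system: `v i = x (i, 0) + I * x (i, 1)` -/
noncomputable def cf {n : ℕ} (M : ℕ) (f g : V n → ℂ) (w : V n) (l : closedBall (0 : ℂ) 1)
    (α : Fin (2 * M + 1) × Fin 2) : ℂ :=
  if α.2 = 0 then cp M f w l α.1 - cq M g w l α.1
  else Complex.I * (cp M f w l α.1 + cq M g w l α.1)

end Pool.Agent.H74.CB
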