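import Pool.Agent.H74.CB.Defs

set_option autoImplicit false

/-!
# [H74 CB Ker] Solutions of the real linear system

* `cf_sum`: for real `x`, with `v i = x (i, 0) + I * x (i, 1)`,
  `∑ α, x α * cf M f g w l α = ∑ i, (v i * cp M f w l i - conj (v i) * cq M g w l i)` (`Fintype.sum_prod_type`, `Fin.sum_univ_two`).
* `cf_ker`: `w = t ζ`, `v i = u i * t ^ i`, `x (i, 0) = re (v i)`, `x (i, 1) = im (v i)` (then `x (i,0) + I * x (i,1) = v i`, `Complex.re_add_im`);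
  `‖w‖ ^ 2 = t ^ 2`, `l • w = (l * t) • ζ`, `‖l t‖ ≤ 1`; `(t^2)^M * u i * t^i * l^i = t^(2M) * u i * (l t)^i` and
  `conj (u i) * t^i * (t^2 * l)^(2M-i) = t^(2M) * conj (u i) * (l t)^(2M-i)` (`i + 2 (2M - i) = 2M + (2M - i)` for `i ≤ 2M`); so the sum is
  `t^(2M)` times the difference of the two sides of `hu (l t)`.
* `cf_sph`: let `v` be as above, not all `0`, `P = ∑ i, v i X^i ≠ 0`. On the circle `|l| = 1`, `‖ζ‖ = 1`: `cf_sum` says `f (l ζ) P(l) = g (l ζ) Q(l)`,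
  `Q(l) = ∑ i, conj (v i) l^(2M-i) = l^(2M) conj (P(l))` (`conj l = l⁻¹`), so `‖Q(l)‖ = ‖P(l)‖` and `‖f (l ζ)‖ = ‖g (l ζ)‖` whenever `P(l) ≠ 0`.
  `P` has finitely many roots, so there are `l_k → 1` on the circle with `P(l_k) ≠ 0` (for instance: the set of roots is finite, and
  `t ↦ exp (i t)`, `t ∈ (0, 1)`, is injective; eventually nonzero as `t → 0+`), and by continuity of `f`, `g` on the closed ball `‖f ζ‖ = ‖g ζ‖`.
  (One way: `l = exp (I t)`, `∀ᶠ t in 𝓝[>] 0, P(exp (I t)) ≠ 0`, `tendsto_nhds_unique`.)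
-/

namespace Pool.Agent.H74.CB

open MeasureTheory Metric

private theorem psplit (z : ℂ) {N i j : ℕ} (h : N = i + j) : z ^ N = z ^ i * z ^ j := by
  rw [h, pow_add]

theorem cf_sum {n : ℕ} (M : ℕ) (f g : V n → ℂ) (w : V n) (l : closedBall (0 : ℂ) 1)
    (x : Fin (2 * M + 1) × Fin 2 → ℝ) :
    ∑ α, (x α : ℂ) * cf M f g w l α =
      ∑ i : Fin (2 * M + 1), (((x (i, 0) : ℂ) + Complex.I * (x (i, 1) : ℂ)) * cp M f w l i -
        (starRingEnd ℂ) ((x (i, 0) : ℂ) + Complex.I * (x (i, 1) : ℂ)) * cq M g w l i) := by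
  rw [Fintype.sum_prod_type]
  refine Finset.sum_congr rfl fun i _ => ?_
  rw [Fin.sum_univ_two]
  have h0 : cf M f g w l (i, 0) = cp M f w l i - cq M g w l i := by simp [cf]
  have h1 : cf M f g w l (i, 1) = Complex.I * (cp M f w l i + cq M g w l i) := by simp [cf]
  rw [h0, h1, map_add, map_mul, Complex.conj_ofReal, Complex.conj_ofReal, Complex.conj_I]
  ring

theorem cf_ker {n : ℕ} (M : ℕ) (f g : V n → ℂ) (ζ : V n) (hζ : ‖ζ‖ = 1) (t : ℝ) (ht0 : 0 < t)
    (ht1 : t < 1) (u : ℕ → ℂ) (hu0 : ∃ i, i < 2 * M + 1 ∧ u i ≠ 0)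
    (hu : ∀ l : ℂ, ‖l‖ ≤ 1 → f (l • ζ) * ∑ i ∈ Finset.range (2 * M + 1), u i * l ^ i =
      g (l • ζ) * ∑ i ∈ Finset.range (2 * M + 1), (starRingEnd ℂ) (u i) * l ^ (2 * M - i)) :
    ∃ x : Fin (2 * M + 1) × Fin 2 → ℝ, x ≠ 0 ∧
      ∀ l : closedBall (0 : ℂ) 1, ∑ α, (x α : ℂ) * cf M f g (t • ζ) l α = 0 := by
  set v : ℕ → ℂ := fun i => u i * (t : ℂ) ^ i with hv
  refine ⟨fun α => if α.2 = 0 then (v α.1).re else (v α.1).im, ?_, ?_⟩
  · intro hx
    obtain ⟨i, hi, hne⟩ := hu0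
    have h0 := congrFun hx (⟨i, hi⟩, 0)
    have h1 := congrFun hx (⟨i, hi⟩, 1)
    simp only [if_true, Pi.zero_apply] at h0
    simp only [one_ne_zero, if_false, Pi.zero_apply] at h1
    have h2 : v i = 0 := Complex.ext h0 h1
    have ht : (t : ℂ) ≠ 0 := by exact_mod_cast ht0.ne'
    exact (mul_ne_zero hne (pow_ne_zero _ ht)) h2
  · intro l
    rw [cf_sum]
    have hl : ‖(l : ℂ)‖ ≤ 1 := mem_closedBall_zero_iff.mp l.2
    have hlt : ‖(l : ℂ) * (t : ℂ)‖ ≤ 1 := by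
      rw [norm_mul, Complex.norm_real, Real.norm_eq_abs, abs_of_pos ht0]
      calc ‖(l : ℂ)‖ * t ≤ 1 * 1 := mul_le_mul hl ht1.le ht0.le zero_le_one
        _ = 1 := one_mul 1
    have hE := hu _ hlt
    have hsm : (l : ℂ) • (t • ζ) = ((l : ℂ) * (t : ℂ)) • ζ := by
      rw [mul_smul]
      congr 1
    have hnw : ‖t • ζ‖ ^ 2 = t ^ 2 := by
      rw [norm_smul, hζ, mul_one, Real.norm_eq_abs, sq_abs]
    have key : ∀ i : Fin (2 * M + 1),
        (((((fun α : Fin (2 * M + 1) × Fin 2 => if α.2 = 0 then (v α.1).re else (v α.1).im) (i, 0) : ℝ) : ℂ) +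
          Complex.I * (((fun α : Fin (2 * M + 1) × Fin 2 => if α.2 = 0 then (v α.1).re else (v α.1).im) (i, 1) : ℝ) : ℂ)) * cp M f (t • ζ) l i -
        (starRingEnd ℂ) ((((fun α : Fin (2 * M + 1) × Fin 2 => if α.2 = 0 then (v α.1).re else (v α.1).im) (i, 0) : ℝ) : ℂ) +
          Complex.I * (((fun α : Fin (2 * M + 1) × Fin 2 => if α.2 = 0 then (v α.1).re else (v α.1).im) (i, 1) : ℝ) : ℂ)) * cq M g (t • ζ) l i) =
        (t : ℂ) ^ (2 * M) * (f (((l : ℂ) * (t : ℂ)) • ζ) * (u i * ((l : ℂ) * (t : ℂ)) ^ (i : ℕ))) -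
        (t : ℂ) ^ (2 * M) * (g (((l : ℂ) * (t : ℂ)) • ζ) * ((starRingEnd ℂ) (u i) * ((l : ℂ) * (t : ℂ)) ^ (2 * M - (i : ℕ)))) := by
      intro i
      have e1 : (((fun α : Fin (2 * M + 1) × Fin 2 => if α.2 = 0 then (v α.1).re else (v α.1).im) (i, 0) : ℝ) : ℂ) +
          Complex.I * (((fun α : Fin (2 * M + 1) × Fin 2 => if α.2 = 0 then (v α.1).re else (v α.1).im) (i, 1) : ℝ) : ℂ) = v i := by
        simp only [if_true, one_ne_zero, if_false]
        rw [mul_comm Complex.I]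
        exact Complex.re_add_im (v i)
      rw [e1]
      simp only [cp, cq, hv, hsm, hnw]
      rw [map_mul, map_pow, Complex.conj_ofReal]
      obtain ⟨j, hj⟩ : ∃ j, 2 * M = (i : ℕ) + j := ⟨2 * M - i, by have := i.2; omega⟩
      have hj2 : 2 * M - (i : ℕ) = j := by omega
      rw [hj2]
      push_cast
      have e2 : ((t : ℂ) ^ 2) ^ M = (t : ℂ) ^ (i : ℕ) * (t : ℂ) ^ j := by
        rw [← pow_mul]; exact psplit _ hj
      have e3 : (t : ℂ) ^ (2 * M) = (t : ℂ) ^ (i : ℕ) * (t : ℂ) ^ j := by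
        exact psplit _ hj
      rw [e2, e3, mul_pow, mul_pow, mul_pow, ← pow_mul (t : ℂ) 2 j]
      rw [show 2 * j = j + j by ring, pow_add]
      ring
    rw [Finset.sum_congr rfl fun i _ => key i, Finset.sum_sub_distrib, ← Finset.mul_sum, ← Finset.mul_sum,
      ← Finset.mul_sum, ← Finset.mul_sum, ← mul_sub]
    rw [Finset.sum_range, Finset.sum_range] at hE
    rw [hE, sub_self, mul_zero]

theorem cf_sph {n : ℕ} (M : ℕ) (f g : V n → ℂ)
    (hf : ContinuousOn f (closedBall (0 : V n) 1)) (hg : ContinuousOn g (closedBall (0 : V n) 1))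
    (ζ : V n) (hζ : ‖ζ‖ = 1)
    (h : ∃ x : Fin (2 * M + 1) × Fin 2 → ℝ, x ≠ 0 ∧
      ∀ l : closedBall (0 : ℂ) 1, ∑ α, (x α : ℂ) * cf M f g ζ l α = 0) : ‖f ζ‖ = ‖g ζ‖ := by
  obtain ⟨x, hx0, hx⟩ := h
  set v : Fin (2 * M + 1) → ℂ := fun i => (x (i, 0) : ℂ) + Complex.I * (x (i, 1) : ℂ) with hv
  set P : Polynomial ℂ := ∑ i : Fin (2 * M + 1), Polynomial.C (v i) * Polynomial.X ^ (i : ℕ) with hP
  have hPc : ∀ i : Fin (2 * M + 1), P.coeff i = v i := by
    intro i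
    rw [hP, Polynomial.finset_sum_coeff]
    simp only [Polynomial.coeff_C_mul, Polynomial.coeff_X_pow]
    rw [Finset.sum_eq_single i]
    · simp
    · intro j _ hj
      have : (i : ℕ) ≠ (j : ℕ) := fun h => hj (Fin.ext h.symm)
      rw [if_neg this, mul_zero]
    · intro hi; exact absurd (Finset.mem_univ i) hi
  have hP0 : P ≠ 0 := by
    intro hP0
    apply hx0
    ext ⟨i, k⟩
    have h1 : v i = 0 := by rw [← hPc i, hP0, Polynomial.coeff_zero]
    have hre : x (i, 0) = 0 := by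
      have := congrArg Complex.re h1
      simpa [hv] using this
    have him : x (i, 1) = 0 := by
      have := congrArg Complex.im h1
      simpa [hv] using this
    fin_cases k
    · exact hre
    · exact him
  have hev : ∀ l : ℂ, P.eval l = ∑ i : Fin (2 * M + 1), v i * l ^ (i : ℕ) := by
    intro l
    rw [hP, Polynomial.eval_finset_sum]
    simp
  -- the identity on the circle
  have hcirc : ∀ l : ℂ, ‖l‖ = 1 → P.eval l ≠ 0 → ‖f (l • ζ)‖ = ‖g (l • ζ)‖ := by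
    intro l hl hPl
    have hlm : l ∈ closedBall (0 : ℂ) 1 := by simp [hl]
    have h1 := hx ⟨l, hlm⟩
    rw [cf_sum] at h1
    have hcp : ∀ i : Fin (2 * M + 1), cp M f ζ l i = f (l • ζ) * l ^ (i : ℕ) := by
      intro i; simp [cp, hζ]
    have hcq : ∀ i : Fin (2 * M + 1), cq M g ζ l i = g (l • ζ) * l ^ (2 * M - (i : ℕ)) := by
      intro i; simp [cq, hζ]
    have hQ : ∑ i : Fin (2 * M + 1), (starRingEnd ℂ) (v i) * l ^ (2 * M - (i : ℕ)) =
        l ^ (2 * M) * (starRingEnd ℂ) (P.eval l) := by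
      rw [hev, map_sum, Finset.mul_sum]
      refine Finset.sum_congr rfl fun i _ => ?_
      rw [map_mul, map_pow]
      obtain ⟨j, hj⟩ : ∃ j, 2 * M = (i : ℕ) + j := ⟨2 * M - i, by have := i.2; omega⟩
      have hj2 : 2 * M - (i : ℕ) = j := by omega
      rw [hj2, psplit l hj]
      have hll : l ^ (i : ℕ) * (starRingEnd ℂ) l ^ (i : ℕ) = 1 := by
        rw [← mul_pow, Complex.mul_conj, Complex.normSq_eq_norm_sq, hl]
        simp
      calc (starRingEnd ℂ) (v i) * l ^ j = (starRingEnd ℂ) (v i) * l ^ j * (l ^ (i : ℕ) * (starRingEnd ℂ) l ^ (i : ℕ)) := by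
            rw [hll, mul_one]
        _ = _ := by ring
    have h2 : f (l • ζ) * P.eval l = g (l • ζ) * (l ^ (2 * M) * (starRingEnd ℂ) (P.eval l)) := by
      rw [← hQ, hev, Finset.mul_sum, Finset.mul_sum, ← sub_eq_zero, ← Finset.sum_sub_distrib, ← h1]
      refine Finset.sum_congr rfl fun i _ => ?_
      have e1 := hcp i
      have e2 := hcq i
      simp only [e1, e2, hv]
      ring
    have h3 := congrArg norm h2
    rw [norm_mul, norm_mul, norm_mul, norm_pow, hl, one_pow, one_mul, RCLike.norm_conj] at h3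
    exact mul_right_cancel₀ (norm_ne_zero_iff.mpr hPl) h3
  -- points of the circle near 1
  have hexp : Filter.Tendsto (fun s : ℝ => Complex.exp ((s : ℂ) * Complex.I)) (nhdsWithin 0 (Set.Ioi 0)) (nhds 1) := by
    have : ContinuousAt (fun s : ℝ => Complex.exp ((s : ℂ) * Complex.I)) 0 := by fun_prop
    have h := this.tendsto
    simp only [Complex.ofReal_zero, zero_mul, Complex.exp_zero] at h
    exact h.mono_left nhdsWithin_le_nhds
  have hPe : ∀ᶠ s : ℝ in nhdsWithin 0 (Set.Ioi 0), P.eval (Complex.exp ((s : ℂ) * Complex.I)) ≠ 0 := by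
    have hfin : (P.roots.toFinset.erase 1 : Set ℂ).Finite := Finset.finite_toSet _
    have h1 : ∀ᶠ s : ℝ in nhdsWithin 0 (Set.Ioi 0), Complex.exp ((s : ℂ) * Complex.I) ∉ (P.roots.toFinset.erase 1 : Set ℂ) := by
      have hopen : IsOpen ((P.roots.toFinset.erase 1 : Set ℂ)ᶜ) := hfin.isClosed.isOpen_compl
      have hmem : (1 : ℂ) ∈ ((P.roots.toFinset.erase 1 : Set ℂ)ᶜ) := by simp
      exact hexp.eventually (hopen.mem_nhds hmem)
    have h2 : ∀ᶠ s : ℝ in nhdsWithin 0 (Set.Ioi 0), Complex.exp ((s : ℂ) * Complex.I) ≠ 1 := by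
      have : Set.Ioo (0 : ℝ) 1 ∈ nhdsWithin (0 : ℝ) (Set.Ioi 0) := Ioo_mem_nhdsGT one_pos
      filter_upwards [this] with s hs heq
      have him := congrArg Complex.im heq
      rw [Complex.exp_ofReal_mul_I_im, Complex.one_im] at him
      exact (Real.sin_pos_of_pos_of_lt_pi hs.1 (hs.2.trans (by linarith [Real.pi_gt_three]))).ne' him
    filter_upwards [h1, h2] with s hs1 hs2 hroot
    apply hs1
    rw [Finset.mem_coe, Finset.mem_erase, Multiset.mem_toFinset, Polynomial.mem_roots hP0]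
    exact ⟨hs2, hroot⟩
  have hmem : ∀ s : ℝ, Complex.exp ((s : ℂ) * Complex.I) • ζ ∈ closedBall (0 : V n) 1 := by
    intro s
    rw [mem_closedBall_zero_iff, norm_smul, hζ, Complex.norm_exp_ofReal_mul_I, one_mul]
  have hζm : ζ ∈ closedBall (0 : V n) 1 := by rw [mem_closedBall_zero_iff, hζ]
  have hlim : Filter.Tendsto (fun s : ℝ => Complex.exp ((s : ℂ) * Complex.I) • ζ) (nhdsWithin 0 (Set.Ioi 0))
      (nhdsWithin ζ (closedBall (0 : V n) 1)) := by
    rw [tendsto_nhdsWithin_iff]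
    refine ⟨?_, Filter.Eventually.of_forall hmem⟩
    have := hexp.smul_const ζ
    rwa [one_smul] at this
  have hA : Filter.Tendsto (fun s : ℝ => ‖f (Complex.exp ((s : ℂ) * Complex.I) • ζ)‖) (nhdsWithin 0 (Set.Ioi 0)) (nhds ‖f ζ‖) :=
    ((hf ζ hζm).tendsto.comp hlim).norm
  have hB : Filter.Tendsto (fun s : ℝ => ‖g (Complex.exp ((s : ℂ) * Complex.I) • ζ)‖) (nhdsWithin 0 (Set.Ioi 0)) (nhds ‖g ζ‖) :=
    ((hg ζ hζm).tendsto.comp hlim).norm
  refine tendsto_nhds_unique (hA.congr' ?_) hB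
  filter_upwards [hPe] with s hs
  exact hcirc _ (Complex.norm_exp_ofReal_mul_I s) hs

end Pool.Agent.H74.CB
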