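import Pool.Agent.H74.CB.Defs

set_option autoImplicit false

/-!
# [H74 CB Lin] The coefficient functions

* `cf_ana`: `‖a + s v‖² = ‖a‖² + 2 s re ⟪a, v⟫ + s² ‖v‖²` is a polynomial in `s` (`norm_add_sq`, real inner product or `re` of the complex one);
  `s ↦ f (l • (a + s • v))`: the function `τ ↦ f (l • (a + τ • v))` of the complex variable `τ` is differentiable on the open set
  `{τ | a + τ • v ∈ ball 0 1}` (there `l • (a + τ • v) ∈ ball 0 1` as `‖l‖ ≤ 1`), hence analytic at `(t : ℂ)` (`DifferentiableOn.analyticAt`);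
  restrict to `ℝ` (`AnalyticAt.restrictScalars`, compose with `Complex.ofRealCLM.analyticAt`; `(s : ℂ) • v = s • v`).
* `cf_cont`: `l • w ∈ closedBall 0 1`.
-/

namespace Pool.Agent.H74.CB

open MeasureTheory Metric

private lemma nrm_ana {n : ℕ} (a v : V n) (t : ℝ) :
    AnalyticAt ℝ (fun s : ℝ => ((‖a + s • v‖ ^ 2 : ℝ) : ℂ)) t := by
  have h1 : (fun s : ℝ => ((‖a + s • v‖ ^ 2 : ℝ) : ℂ))
      = Complex.ofRealCLM ∘ (fun s : ℝ => ∑ i, (((a i).re + s * (v i).re) ^ 2
        + ((a i).im + s * (v i).im) ^ 2)) := by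
    funext s
    simp only [Function.comp, Complex.ofRealCLM_apply]
    congr 1
    rw [EuclideanSpace.norm_sq_eq]
    refine Finset.sum_congr rfl fun i _ => ?_
    rw [← Complex.normSq_eq_norm_sq, Complex.normSq_apply]
    simp
    ring
  rw [h1]
  refine (Complex.ofRealCLM.analyticAt _).comp ?_
  refine Finset.analyticAt_fun_sum _ fun i _ => ?_
  fun_prop

private lemma f_ana {n : ℕ} (f : V n → ℂ) (hf : DifferentiableOn ℂ f (ball (0 : V n) 1))
    (l : closedBall (0 : ℂ) 1) (a v : V n) (t : ℝ) (ht : a + t • v ∈ ball (0 : V n) 1) :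
    AnalyticAt ℝ (fun s : ℝ => f ((l : ℂ) • (a + s • v))) t := by
  have hl : ‖(l : ℂ)‖ ≤ 1 := mem_closedBall_zero_iff.1 l.2
  set S : Set ℂ := {τ : ℂ | a + τ • v ∈ ball (0 : V n) 1} with hS
  have hSo : IsOpen S := isOpen_ball.preimage (by fun_prop)
  have hd : DifferentiableOn ℂ (fun τ : ℂ => f ((l : ℂ) • (a + τ • v))) S := by
    refine hf.comp (f := fun τ : ℂ => (l : ℂ) • (a + τ • v)) ?_ ?_
    · exact Differentiable.differentiableOn (by fun_prop)
    · intro τ hτ
      have h2 : ‖a + τ • v‖ < 1 := by simpa [hS] using hτ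
      rw [mem_ball_zero_iff, norm_smul]
      calc ‖(l : ℂ)‖ * ‖a + τ • v‖ ≤ 1 * ‖a + τ • v‖ :=
            mul_le_mul_of_nonneg_right hl (norm_nonneg _)
        _ < 1 := by simpa using h2
  have hts : (t : ℂ) ∈ S := by
    have : (t : ℂ) • v = t • v := by
      ext i; simp
    rw [hS, Set.mem_ofPred_eq, this]
    exact ht
  have h3 : AnalyticAt ℂ (fun τ : ℂ => f ((l : ℂ) • (a + τ • v))) (t : ℂ) :=
    hd.analyticAt (hSo.mem_nhds hts)
  have h4 : AnalyticAt ℝ (fun τ : ℂ => f ((l : ℂ) • (a + τ • v))) (Complex.ofRealCLM t) :=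
    h3.restrictScalars
  have h5 := h4.comp (Complex.ofRealCLM.analyticAt t)
  have h6 : (fun τ : ℂ => f ((l : ℂ) • (a + τ • v))) ∘ Complex.ofRealCLM
      = fun s : ℝ => f ((l : ℂ) • (a + s • v)) := by
    funext s
    simp only [Function.comp, Complex.ofRealCLM_apply]
    have : (s : ℂ) • v = s • v := by
      ext i; simp
    rw [this]
  rw [h6] at h5
  exact h5

theorem cf_ana {n : ℕ} (M : ℕ) (f g : V n → ℂ)
    (hf : DifferentiableOn ℂ f (ball (0 : V n) 1)) (hg : DifferentiableOn ℂ g (ball (0 : V n) 1))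
    (l : closedBall (0 : ℂ) 1) (α : Fin (2 * M + 1) × Fin 2) (a v : V n) (t : ℝ)
    (ht : a + t • v ∈ ball (0 : V n) 1) :
    AnalyticAt ℝ (fun s : ℝ => cf M f g (a + s • v) l α) t := by
  have hn := nrm_ana a v t
  have h1 := f_ana f hf l a v t ht
  have h2 := f_ana g hg l a v t ht
  have hp : AnalyticAt ℝ (fun s : ℝ => cp M f (a + s • v) l α.1) t := by
    unfold cp
    exact ((hn.fun_pow M).fun_mul h1).fun_mul analyticAt_const
  have hq : AnalyticAt ℝ (fun s : ℝ => cq M g (a + s • v) l α.1) t := by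
    unfold cq
    exact h2.fun_mul ((hn.fun_mul analyticAt_const).fun_pow _)
  by_cases hα : α.2 = 0
  · have : (fun s : ℝ => cf M f g (a + s • v) l α)
        = fun s : ℝ => cp M f (a + s • v) l α.1 - cq M g (a + s • v) l α.1 := by
      funext s; simp [cf, hα]
    rw [this]
    exact hp.fun_sub hq
  · have : (fun s : ℝ => cf M f g (a + s • v) l α)
        = fun s : ℝ => Complex.I * (cp M f (a + s • v) l α.1 + cq M g (a + s • v) l α.1) := by
      funext s; simp [cf, hα]
    rw [this]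
    exact analyticAt_const.fun_mul (hp.fun_add hq)

theorem cf_cont {n : ℕ} (M : ℕ) (f g : V n → ℂ)
    (hf : ContinuousOn f (closedBall (0 : V n) 1)) (hg : ContinuousOn g (closedBall (0 : V n) 1))
    (l : closedBall (0 : ℂ) 1) (α : Fin (2 * M + 1) × Fin 2) :
    ContinuousOn (fun w => cf M f g w l α) (closedBall (0 : V n) 1) := by
  have hl : ‖(l : ℂ)‖ ≤ 1 := mem_closedBall_zero_iff.1 l.2
  have hm : Set.MapsTo (fun w : V n => (l : ℂ) • w) (closedBall (0 : V n) 1)
      (closedBall (0 : V n) 1) := by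
    intro w hw
    have h2 : ‖w‖ ≤ 1 := by simpa using hw
    rw [mem_closedBall_zero_iff, norm_smul]
    calc ‖(l : ℂ)‖ * ‖w‖ ≤ 1 * 1 := mul_le_mul hl h2 (norm_nonneg _) zero_le_one
      _ = 1 := one_mul 1
  have hc : ContinuousOn (fun w : V n => (l : ℂ) • w) (closedBall (0 : V n) 1) := by fun_prop
  have h1 : ContinuousOn (fun w : V n => f ((l : ℂ) • w)) (closedBall (0 : V n) 1) :=
    hf.comp hc hm
  have h2 : ContinuousOn (fun w : V n => g ((l : ℂ) • w)) (closedBall (0 : V n) 1) :=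
    hg.comp hc hm
  have hn : ContinuousOn (fun w : V n => ((‖w‖ ^ 2 : ℝ) : ℂ)) (closedBall (0 : V n) 1) := by
    fun_prop
  have hp : ContinuousOn (fun w : V n => cp M f w l α.1) (closedBall (0 : V n) 1) := by
    unfold cp
    exact ((hn.pow M).mul h1).mul continuousOn_const
  have hq : ContinuousOn (fun w : V n => cq M g w l α.1) (closedBall (0 : V n) 1) := by
    unfold cq
    exact h2.mul ((hn.mul continuousOn_const).pow _)
  by_cases hα : α.2 = 0
  · have : (fun w : V n => cf M f g w l α)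
        = fun w : V n => cp M f w l α.1 - cq M g w l α.1 := by
      funext s; simp [cf, hα]
    rw [this]
    exact hp.sub hq
  · have : (fun w : V n => cf M f g w l α)
        = fun w : V n => Complex.I * (cp M f w l α.1 + cq M g w l α.1) := by
      funext s; simp [cf, hα]
    rw [this]
    exact continuousOn_const.mul (hp.add hq)

end Pool.Agent.H74.CB
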