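import Pool.Agent.H74.CB.Defs
import Pool.Agent.H29.CS.Blaschke

set_option autoImplicit false

/-! # [H74 CB Rel] The relation in one variable, from `blaschke` and `blaschke_le` of helper29 -/

namespace Pool.Agent.H74.CB

open MeasureTheory Metric Polynomial Pool.Agent.H29.CS

theorem rel (F G : ℂ → ℂ) (hF : ContinuousOn F (closedBall (0 : ℂ) 1))
    (hF' : DifferentiableOn ℂ F (ball (0 : ℂ) 1)) (hG : ContinuousOn G (closedBall (0 : ℂ) 1))
    (hG' : DifferentiableOn ℂ G (ball (0 : ℂ) 1))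
    (h0 : ∀ t : ℂ, ‖t‖ = 1 → ‖F t‖ = ‖G t‖ ∧ F t ≠ 0) :
    ∃ (M : ℕ) (u : ℕ → ℂ), (∃ i, i < 2 * M + 1 ∧ u i ≠ 0) ∧ ∀ l : ℂ, ‖l‖ ≤ 1 →
      F l * ∑ i ∈ Finset.range (2 * M + 1), u i * l ^ i =
        G l * ∑ i ∈ Finset.range (2 * M + 1), (starRingEnd ℂ) (u i) * l ^ (2 * M - i) := by
  have hcl : closure (ball (0 : ℂ) 1) = closedBall 0 1 := closure_ball _ one_ne_zero
  have hFd : DiffContOnCl ℂ F (ball 0 1) := ⟨hF', by rw [hcl]; exact hF⟩
  have hGd : DiffContOnCl ℂ G (ball 0 1) := ⟨hG', by rw [hcl]; exact hG⟩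
  obtain ⟨N, U, hU0, hUd, hU⟩ := blaschke hFd hGd (fun z hz => (h0 z hz).2)
    (fun z hz => (h0 z hz).1)
  obtain ⟨W, hW0, hWd, hW⟩ := blaschke_le (show N ≤ 2 * N by omega) ⟨U, hU0, hUd, hU⟩
  refine ⟨N, fun i => W.coeff i, ?_, ?_⟩
  · refine ⟨W.natDegree, by omega, ?_⟩
    exact Polynomial.leadingCoeff_ne_zero.2 hW0
  · intro l hl
    have h1 := hW l (mem_closedBall_zero_iff.2 hl)
    have h2 : W.eval l = ∑ i ∈ Finset.range (2 * N + 1), W.coeff i * l ^ i :=
      Polynomial.eval_eq_sum_range' (by omega) l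
    have h3 : (cstar (2 * N) W).eval l =
        ∑ i ∈ Finset.range (2 * N + 1), (starRingEnd ℂ) (W.coeff i) * l ^ (2 * N - i) := by
      have h4 : (cstar (2 * N) W).natDegree < 2 * N + 1 := by
        have h5 : (cstar (2 * N) W).natDegree ≤ 2 * N := by
          refine Polynomial.natDegree_le_iff_coeff_eq_zero.2 fun k hk => ?_
          unfold cstar
          rw [Polynomial.coeff_reflect, Polynomial.coeff_map, Polynomial.revAt_eq_self_of_lt hk,
            Polynomial.coeff_eq_zero_of_natDegree_lt (by omega), map_zero]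
        omega
      rw [Polynomial.eval_eq_sum_range' h4, ← Finset.sum_range_reflect]
      refine Finset.sum_congr rfl fun i hi => ?_
      have hi' : i < 2 * N + 1 := Finset.mem_range.1 hi
      rw [cstar_coeff _ _ _ (by omega)]
      congr 3
      omega
    rw [← h2, ← h3]
    exact h1

end Pool.Agent.H74.CB
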