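import Pool.Agent.H74.CB.Grm
import Pool.Agent.H74.CB.Lin
import Pool.Agent.H74.CB.Ker
import Pool.Agent.H74.CB.Pol
import Pool.Agent.H74.CB.Mes
import Pool.Agent.H74.CB.Rel
import Pool.Agent.H74.CB.Cap

set_option autoImplicit false

/-! # [H74 CB Final] assembly (helper74) -/

namespace Pool.Agent.H74.CB

open MeasureTheory Metric

private theorem slice_cont {n : ℕ} (f : V n → ℂ) (hf : ContinuousOn f (closedBall (0 : V n) 1))
    (ζ : V n) (hζ : ‖ζ‖ = 1) : ContinuousOn (fun l : ℂ => f (l • ζ)) (closedBall (0 : ℂ) 1) := by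
  refine hf.comp (by fun_prop) ?_
  intro l hl
  rw [mem_closedBall_zero_iff] at hl ⊢
  rw [norm_smul, hζ, mul_one]
  exact hl

private theorem slice_diff {n : ℕ} (f : V n → ℂ) (hf : DifferentiableOn ℂ f (ball (0 : V n) 1))
    (ζ : V n) (hζ : ‖ζ‖ = 1) : DifferentiableOn ℂ (fun l : ℂ => f (l • ζ)) (ball (0 : ℂ) 1) := by
  refine hf.comp (by fun_prop) ?_
  intro l hl
  rw [mem_ball_zero_iff] at hl ⊢
  rw [norm_smul, hζ, mul_one]
  exact hl

theorem final (n : ℕ) (hn : 2 ≤ n) (f g : EuclideanSpace ℂ (Fin n) → ℂ)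
    (hf : ContinuousOn f (closedBall (0 : EuclideanSpace ℂ (Fin n)) 1))
    (hf' : DifferentiableOn ℂ f (ball (0 : EuclideanSpace ℂ (Fin n)) 1))
    (hg : ContinuousOn g (closedBall (0 : EuclideanSpace ℂ (Fin n)) 1))
    (hg' : DifferentiableOn ℂ g (ball (0 : EuclideanSpace ℂ (Fin n)) 1))
    (hpos : (volume : Measure (EuclideanSpace ℂ (Fin n))).toSphere
      {ζ : sphere (0 : EuclideanSpace ℂ (Fin n)) 1 | ∀ t : ℂ, ‖t‖ = 1 →
        ‖f (t • (ζ : EuclideanSpace ℂ (Fin n)))‖ = ‖g (t • (ζ : EuclideanSpace ℂ (Fin n)))‖ ∧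
          f (t • (ζ : EuclideanSpace ℂ (Fin n))) ≠ 0} ≠ 0) :
    ∃ c : ℂ, ∀ z ∈ closedBall (0 : EuclideanSpace ℂ (Fin n)) 1, f z = c * g z := by
  have hA := eset_meas f g hf hg
  set A : Set (sphere (0 : V n) 1) := {ζ | ∀ t : ℂ, ‖t‖ = 1 →
    ‖f (t • (ζ : V n))‖ = ‖g (t • (ζ : V n))‖ ∧ f (t • (ζ : V n)) ≠ 0} with hAdef
  let S : ℕ → Set (V n) := fun M => {w | w ∈ ball (0 : V n) 1 ∧
    ∃ x : Fin (2 * M + 1) × Fin 2 → ℝ, x ≠ 0 ∧
      ∀ l : closedBall (0 : ℂ) 1, ∑ α, (x α : ℂ) * cf M f g w l α = 0}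
  have hS : ∀ ζ ∈ A, ∀ t : ℝ, 0 < t → t < 1 → ∃ M, t • (ζ : V n) ∈ S M := by
    intro ζ hζ t ht0 ht1
    have hz : ‖(ζ : V n)‖ = 1 := mem_sphere_zero_iff_norm.1 ζ.2
    obtain ⟨M, u, hu0, hu⟩ := rel (fun l => f (l • (ζ : V n))) (fun l => g (l • (ζ : V n)))
      (slice_cont f hf ζ hz) (slice_diff f hf' ζ hz) (slice_cont g hg ζ hz)
      (slice_diff g hg' ζ hz) (fun t ht => hζ t ht)
    refine ⟨M, ?_, cf_ker M f g ζ hz t ht0 ht1 u hu0 hu⟩
    rw [mem_ball_zero_iff, norm_smul, hz, mul_one, Real.norm_eq_abs, abs_of_pos ht0]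
    exact ht1
  obtain ⟨M, hM⟩ := cone_union A hA hpos S hS
  have key : ∀ K : Finset (closedBall (0 : ℂ) 1), ∀ w ∈ ball (0 : V n) 1,
      (gr (cf M f g w) K).det = 0 := by
    intro K
    refine ident (by omega) (fun w => (gr (cf M f g w) K).det)
      ((gr_cont (fun w => cf M f g w) K _
        (fun l _ α => cf_cont M f g hf hg l α)).mono ball_subset_closedBall)
      (fun a v t ht => gr_ana (fun s => cf M f g (a + s • v)) K t
        (fun l _ α => cf_ana M f g hf' hg' l α a v t ht)) ?_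
    intro h0
    refine hM (measure_mono_null ?_ h0)
    rintro w ⟨hw, hx⟩
    exact ⟨hw, (gr_det (cf M f g w)).1 hx K⟩
  have key2 : ∀ K : Finset (closedBall (0 : ℂ) 1), ∀ w ∈ closedBall (0 : V n) 1,
      (gr (cf M f g w) K).det = 0 := by
    intro K
    have hcont : ContinuousOn (fun w => (gr (cf M f g w) K).det) (closedBall (0 : V n) 1) :=
      gr_cont (fun w => cf M f g w) K _ (fun l _ α => cf_cont M f g hf hg l α)
    have hcl : closure (ball (0 : V n) 1) = closedBall 0 1 := closure_ball _ one_ne_zero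
    have := Set.EqOn.of_subset_closure (f := fun w => (gr (cf M f g w) K).det)
      (g := fun _ => (0 : ℝ)) (s := ball (0 : V n) 1) (t := closedBall (0 : V n) 1)
      (fun w hw => key K w hw) hcont continuousOn_const ball_subset_closedBall hcl.ge
    exact fun w hw => this hw
  have heq : ∀ z : V n, ‖z‖ = 1 → ‖f z‖ = ‖g z‖ := by
    intro z hz
    exact cf_sph M f g hf hg z hz ((gr_det (cf M f g z)).2
      (fun K => key2 K z (by rw [mem_closedBall_zero_iff, hz])))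
  exact cap hn f g hf hf' hg hg' heq

end Pool.Agent.H74.CB
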