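import Pool.Agent.H74.CB.Defs

set_option autoImplicit false

/-!
# [H74 CB Grm] Gram determinants of real linear forms

* `gr_det`: (→) `gr c K *ᵥ x = 0`: its entry at `α` is `∑ β, x β * ∑ l ∈ K, re (conj (c l α) * c l β) = ∑ l ∈ K, re (conj (c l α) * ∑ β, x β * c l β) = 0`;
  `Matrix.exists_mulVec_eq_zero_iff`.
  (←) First finite `K`: `Matrix.exists_mulVec_eq_zero_iff` gives `x ≠ 0` with `gr c K *ᵥ x = 0`; then `0 = x ⬝ᵥ (gr c K *ᵥ x) = ∑ l ∈ K, ‖∑ α, x α * c l α‖ ^ 2`
  (`Complex.normSq`), so all terms are `0`; scale `x` to norm `1` (`‖x‖⁻¹ • x`, sup norm on `ι → ℝ`).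
  All `l`: the sets `A l = {x | ∑ α, (x α : ℂ) * c l α = 0}` are closed; `IsCompact.inter_iInter_nonempty` for the compact set
  `Metric.sphere (0 : ι → ℝ) 1` (proper space), finite intersections by the first part.
* `gr_ana`: `Matrix.det_apply`, finite sums and products of analytic functions.
* `gr_cont`: the same with continuity.
-/

namespace Pool.Agent.H74.CB

open MeasureTheory Metric

theorem gr_mulVec {ι T : Type*} [Fintype ι] (c : T → ι → ℂ) (K : Finset T) (x : ι → ℝ) (α : ι) :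
    (gr c K).mulVec x α =
      ∑ l ∈ K, ((starRingEnd ℂ) (c l α) * ∑ β, (x β : ℂ) * c l β).re := by
  simp only [Matrix.mulVec, dotProduct, gr]
  calc ∑ β, (∑ l ∈ K, ((starRingEnd ℂ) (c l α) * c l β).re) * x β
      = ∑ β, ∑ l ∈ K, ((starRingEnd ℂ) (c l α) * c l β).re * x β := by
        refine Finset.sum_congr rfl fun β _ => ?_
        rw [Finset.sum_mul]
    _ = ∑ l ∈ K, ∑ β, ((starRingEnd ℂ) (c l α) * c l β).re * x β := Finset.sum_comm
    _ = _ := by
        refine Finset.sum_congr rfl fun l _ => ?_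
        rw [Finset.mul_sum, Complex.re_sum]
        refine Finset.sum_congr rfl fun β _ => ?_
        have : (starRingEnd ℂ) (c l α) * ((x β : ℂ) * c l β) =
            ((starRingEnd ℂ) (c l α) * c l β) * (x β : ℂ) := by ring
        rw [this, Complex.re_mul_ofReal]

theorem gr_quad {ι T : Type*} [Fintype ι] (c : T → ι → ℂ) (K : Finset T) (x : ι → ℝ) :
    ∑ α, x α * (gr c K).mulVec x α = ∑ l ∈ K, Complex.normSq (∑ β, (x β : ℂ) * c l β) := by
  calc ∑ α, x α * (gr c K).mulVec x α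
      = ∑ α, ∑ l ∈ K, x α * ((starRingEnd ℂ) (c l α) * ∑ β, (x β : ℂ) * c l β).re := by
        refine Finset.sum_congr rfl fun α _ => ?_
        rw [gr_mulVec, Finset.mul_sum]
    _ = ∑ l ∈ K, ∑ α, x α * ((starRingEnd ℂ) (c l α) * ∑ β, (x β : ℂ) * c l β).re :=
        Finset.sum_comm
    _ = _ := by
        refine Finset.sum_congr rfl fun l _ => ?_
        have h1 : ((starRingEnd ℂ) (∑ β, (x β : ℂ) * c l β) * ∑ β, (x β : ℂ) * c l β).re =
            Complex.normSq (∑ β, (x β : ℂ) * c l β) := by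
          rw [mul_comm, Complex.mul_conj]
          exact Complex.ofReal_re _
        rw [← h1, map_sum, Finset.sum_mul, Complex.re_sum]
        refine Finset.sum_congr rfl fun α _ => ?_
        rw [map_mul, Complex.conj_ofReal, mul_assoc, Complex.re_ofReal_mul]

theorem gr_fin {ι T : Type*} [Fintype ι] [DecidableEq ι] (c : T → ι → ℂ) (K : Finset T)
    (h : (gr c K).det = 0) :
    ∃ x : ι → ℝ, ‖x‖ = 1 ∧ ∀ l ∈ K, ∑ α, (x α : ℂ) * c l α = 0 := by
  obtain ⟨x, hx0, hx⟩ := Matrix.exists_mulVec_eq_zero_iff.2 h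
  have hq := gr_quad c K x
  rw [hx] at hq
  simp only [Pi.zero_apply, mul_zero, Finset.sum_const_zero] at hq
  have hz : ∀ l ∈ K, Complex.normSq (∑ β, (x β : ℂ) * c l β) = 0 :=
    (Finset.sum_eq_zero_iff_of_nonneg (fun l _ => Complex.normSq_nonneg _)).1 hq.symm
  have hn : ‖x‖ ≠ 0 := norm_ne_zero_iff.2 hx0
  refine ⟨‖x‖⁻¹ • x, ?_, fun l hl => ?_⟩
  · rw [norm_smul, norm_inv, norm_norm, inv_mul_cancel₀ hn]
  · have h1 := Complex.normSq_eq_zero.1 (hz l hl)
    have h2 : ∑ α, (((‖x‖⁻¹ • x) α : ℝ) : ℂ) * c l α = ((‖x‖⁻¹ : ℝ) : ℂ) * ∑ α, (x α : ℂ) * c l α := by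
      rw [Finset.mul_sum]
      refine Finset.sum_congr rfl fun α _ => ?_
      rw [Pi.smul_apply, smul_eq_mul]
      push_cast
      ring
    rw [h2, h1, mul_zero]

theorem gr_det {ι T : Type*} [Fintype ι] [DecidableEq ι] (c : T → ι → ℂ) :
    (∃ x : ι → ℝ, x ≠ 0 ∧ ∀ l, ∑ α, (x α : ℂ) * c l α = 0) ↔ ∀ K : Finset T, (gr c K).det = 0 := by
  constructor
  · rintro ⟨x, hx0, hx⟩ K
    refine Matrix.exists_mulVec_eq_zero_iff.1 ⟨x, hx0, ?_⟩
    ext α
    rw [gr_mulVec]
    simp [hx]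
  · intro h
    have hcl : ∀ l : T, IsClosed {x : ι → ℝ | ∑ α, (x α : ℂ) * c l α = 0} := by
      intro l
      refine isClosed_eq ?_ continuous_const
      fun_prop
    have hne := (isCompact_sphere (0 : ι → ℝ) 1).inter_iInter_nonempty
      (fun l : T => {x : ι → ℝ | ∑ α, (x α : ℂ) * c l α = 0}) hcl (fun K => by
        obtain ⟨x, hx1, hx⟩ := gr_fin c K (h K)
        refine ⟨x, by simpa using hx1, ?_⟩
        simp only [Set.mem_iInter]
        intro l hl
        exact hx l hl)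
    obtain ⟨x, hx1, hx2⟩ := hne
    refine ⟨x, ?_, fun l => ?_⟩
    · intro hx0
      rw [hx0] at hx1
      simp at hx1
    · exact (Set.mem_iInter.1 hx2) l

theorem gr_ana {ι T : Type*} [Fintype ι] [DecidableEq ι] (c : ℝ → T → ι → ℂ) (K : Finset T) (t0 : ℝ)
    (h : ∀ l ∈ K, ∀ α, AnalyticAt ℝ (fun t => c t l α) t0) :
    AnalyticAt ℝ (fun t => (gr (c t) K).det) t0 := by
  have hent : ∀ α β, AnalyticAt ℝ (fun t => gr (c t) K α β) t0 := by
    intro α β
    simp only [gr]
    refine Finset.analyticAt_fun_sum _ (fun l hl => ?_)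
    have h1 : AnalyticAt ℝ (fun t => (starRingEnd ℂ) (c t l α)) t0 :=
      (Complex.conjCLE.toContinuousLinearMap.analyticAt _).comp (h l hl α)
    have h2 : AnalyticAt ℝ (fun t => (starRingEnd ℂ) (c t l α) * c t l β) t0 :=
      h1.mul (h l hl β)
    exact (Complex.reCLM.analyticAt _).comp h2
  simp only [Matrix.det_apply]
  refine Finset.analyticAt_fun_sum _ (fun σ _ => ?_)
  have h3 : AnalyticAt ℝ (fun t => ∏ i, gr (c t) K (σ i) i) t0 :=
    Finset.analyticAt_fun_prod _ (fun i _ => hent _ _)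
  have h4 : (fun t => Equiv.Perm.sign σ • ∏ i, gr (c t) K (σ i) i) =
      fun t => ((Equiv.Perm.sign σ : ℤ) : ℝ) * ∏ i, gr (c t) K (σ i) i := by
    funext t
    rw [Units.smul_def, zsmul_eq_mul]
  rw [h4]
  exact analyticAt_const.mul h3

theorem gr_cont {ι T X : Type*} [Fintype ι] [DecidableEq ι] [TopologicalSpace X] (c : X → T → ι → ℂ)
    (K : Finset T) (s : Set X) (h : ∀ l ∈ K, ∀ α, ContinuousOn (fun x => c x l α) s) :
    ContinuousOn (fun x => (gr (c x) K).det) s := by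
  have hent : ∀ α β, ContinuousOn (fun x => gr (c x) K α β) s := by
    intro α β
    simp only [gr]
    refine continuousOn_finset_sum _ (fun l hl => ?_)
    have h1 : ContinuousOn (fun x => (starRingEnd ℂ) (c x l α)) s :=
      Complex.continuous_conj.comp_continuousOn (h l hl α)
    exact Complex.continuous_re.comp_continuousOn (h1.mul (h l hl β))
  simp only [Matrix.det_apply]
  refine continuousOn_finset_sum _ (fun σ _ => ?_)
  have h3 : ContinuousOn (fun x => ∏ i, gr (c x) K (σ i) i) s :=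
    continuousOn_finset_prod _ (fun i _ => hent _ _)
  have h4 : (fun x => Equiv.Perm.sign σ • ∏ i, gr (c x) K (σ i) i) =
      fun x => ((Equiv.Perm.sign σ : ℤ) : ℝ) * ∏ i, gr (c x) K (σ i) i := by
    funext t
    rw [Units.smul_def, zsmul_eq_mul]
  rw [h4]
  exact continuousOn_const.mul h3

end Pool.Agent.H74.CB
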